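import Mathlib
import Pool.Agent.H75.L8.H759R2.Kad.Defs

/-!
Density theorems for the bicommutant of the range of a representation.
-/

set_option linter.unusedSectionVars false

open scoped ComplexOrder InnerProductSpace

noncomputable section

namespace H770R2.Kad

open H759R2.Kad

universe u v

variable {H : Type v} [NormedAddCommGroup H] [InnerProductSpace ℂ H] [CompleteSpace H]

theorem proj_comm {E : Type*} [NormedAddCommGroup E] [InnerProductSpace ℂ E] [CompleteSpace E]
    (K : Submodule ℂ E) [K.HasOrthogonalProjection] (T : E →L[ℂ] E)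
    (h1 : ∀ x ∈ K, T x ∈ K) (h2 : ∀ x ∈ K, (star T) x ∈ K) (x : E) :
    K.starProjection (T x) = T (K.starProjection x) := by
  have hd : T x = T (K.starProjection x) + T (x - K.starProjection x) := by
    rw [← map_add]
    congr 1
    abel
  have h3 : K.starProjection (T (K.starProjection x)) = T (K.starProjection x) :=
    Submodule.starProjection_eq_self_iff.2 (h1 _ (K.starProjection_apply_mem x))
  have h4 : K.starProjection (T (x - K.starProjection x)) = 0 := by
    rw [Submodule.starProjection_apply_eq_zero_iff]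
    intro y hy
    rw [← ContinuousLinearMap.adjoint_inner_left, ← ContinuousLinearMap.star_eq_adjoint]
    have := K.sub_starProjection_mem_orthogonal x
    exact this _ (h2 y hy)
  rw [hd, map_add, h3, h4, add_zero]

/-- The diagonal operator on the Hilbert sum. -/
def dg (n : ℕ) (T : H →L[ℂ] H) : HH (Fin n) H →L[ℂ] HH (Fin n) H :=
  opMat fun i j => if i = j then T else 0

theorem dg_apply (n : ℕ) (T : H →L[ℂ] H) (v : HH (Fin n) H) (i : Fin n) :
    dg n T v i = T (v i) := by
  rw [dg, opMat_apply, Finset.sum_eq_single i]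
  · simp
  · intro j _ hj
    simp [Ne.symm hj]
  · simp

theorem dg_star (n : ℕ) (T : H →L[ℂ] H) : star (dg n T) = dg n (star T) := by
  rw [dg, opMat_star, dg]
  congr 1
  funext i j
  by_cases h : i = j
  · subst h
    simp
  · simp [h, Ne.symm h]

/-- The double commutant theorem for finitely many vectors. -/
theorem bicomm {A : Type u} [CStarAlgebra A] (π : A →⋆ₐ[ℂ] (H →L[ℂ] H)) (x : H →L[ℂ] H)
    (hx : ∀ y : H →L[ℂ] H, (∀ a, y * π a = π a * y) → y * x = x * y) (n : ℕ) (ξ : Fin n → H)
    (ε : ℝ) (hε : 0 < ε) : ∃ a, ∀ k, ‖π a (ξ k) - x (ξ k)‖ < ε := by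
  let ξ' : HH (Fin n) H := WithLp.toLp 2 ξ
  let L : A →ₗ[ℂ] HH (Fin n) H :=
    { toFun := fun a => dg n (π a) ξ'
      map_add' := fun a b => by
        ext i
        simp [dg_apply]
      map_smul' := fun c a => by
        ext i
        simp [dg_apply] }
  let K : Submodule ℂ (HH (Fin n) H) := (LinearMap.range L).topologicalClosure
  have hKc : IsClosed (K : Set (HH (Fin n) H)) := Submodule.isClosed_topologicalClosure _
  haveI : CompleteSpace K := hKc.completeSpace_coe
  have hinv : ∀ a, ∀ v ∈ K, dg n (π a) v ∈ K := by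
    intro a v hv
    have h1 : Set.MapsTo (dg n (π a)) (LinearMap.range L : Set (HH (Fin n) H))
        (LinearMap.range L : Set (HH (Fin n) H)) := by
      rintro _ ⟨b, rfl⟩
      refine ⟨a * b, ?_⟩
      ext i
      simp [L, dg_apply]
    have h2 := h1.closure (dg n (π a)).continuous
    exact h2 hv
  have hcomm : ∀ a v, K.starProjection (dg n (π a) v) = dg n (π a) (K.starProjection v) := by
    intro a v
    refine proj_comm K _ (hinv a) ?_ v
    intro w hw
    rw [dg_star, ← map_star]
    exact hinv _ w hw
  -- entries of the projection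
  have hent : ∀ i j (v : H), (K.starProjection (inj j (x v))) i =
      x ((K.starProjection (inj j v)) i) := by
    intro i j v
    let pij : H →L[ℂ] H :=
      (PiLp.proj 2 (fun _ : Fin n => H) i : HH (Fin n) H →L[ℂ] H) ∘L K.starProjection ∘L
        (LinearMap.mkContinuous (inj j : H →ₗ[ℂ] HH (Fin n) H) 1 (fun w => by
          rw [one_mul, PiLp.norm_eq_of_L2]
          rw [Finset.sum_eq_single j]
          · simp [inj_apply]
          · intro b _ hb
            simp [inj_apply, hb]
          · simp))
    have hp : ∀ w, pij w = (K.starProjection (inj j w)) i := fun w => rfl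
    have hc : ∀ a, pij * π a = π a * pij := by
      intro a
      ext w
      change pij (π a w) = π a (pij w)
      rw [hp, hp]
      have h1 : inj j (π a w) = dg n (π a) (inj j w) := by
        ext k
        rw [dg_apply, inj_apply, inj_apply]
        split_ifs <;> simp
      rw [h1, hcomm, dg_apply]
    have h2 := congrArg (fun T : H →L[ℂ] H => T v) (hx pij hc)
    change pij (x v) = x (pij v) at h2
    rwa [hp, hp] at h2
  have hxc : ∀ v, K.starProjection (dg n x v) = dg n x (K.starProjection v) := by
    intro v
    conv_lhs => rw [← sum_inj v]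
    conv_rhs => rw [← sum_inj v]
    rw [map_sum, map_sum, map_sum, map_sum]
    refine Finset.sum_congr rfl fun j _ => ?_
    have h1 : dg n x (inj j (v j)) = inj j (x (v j)) := by
      ext k
      rw [dg_apply, inj_apply, inj_apply]
      split_ifs <;> simp
    rw [h1]
    ext i
    rw [hent, dg_apply]
  have hξ : ξ' ∈ K := by
    refine Submodule.le_topologicalClosure _ ⟨1, ?_⟩
    ext i
    simp [L, dg_apply]
  have hxξ : dg n x ξ' ∈ K := by
    have h1 := hxc ξ'
    rw [Submodule.starProjection_eq_self_iff.2 hξ] at h1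
    exact Submodule.starProjection_eq_self_iff.1 h1
  obtain ⟨v, ⟨a, rfl⟩, hv⟩ := Metric.mem_closure_iff.1 hxξ ε hε
  refine ⟨a, fun k => ?_⟩
  have h1 : ‖(L a - dg n x ξ') k‖ ≤ ‖L a - dg n x ξ'‖ := PiLp.norm_apply_le _ k
  have h2 : (L a - dg n x ξ') k = π a (ξ k) - x (ξ k) := by
    change (L a) k - (dg n x ξ') k = _
    rw [dg_apply]
    change dg n (π a) ξ' k - _ = _
    rw [dg_apply]
  rw [h2] at h1
  refine lt_of_le_of_lt h1 ?_
  rwa [dist_eq_norm, norm_sub_rev] at hv

end H770R2.Kad
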